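import Pool.Agent.WallR.Final
import Pool.Agent.WallR.StopA
import Pool.Agent.WallR.StopB
import Pool.Agent.WallR.CmpP
import Pool.Agent.WallR.Exist
import Pool.Agent.WallR.Base
import Pool.Agent.WallR.BaseG
import Pool.Agent.WallR.Goto
import Pool.Agent.WallR.Seq
import Pool.Agent.WallR.Tour
import Pool.Agent.WallR.Law
import Pool.Agent.WallR.Rnd
import Pool.Agent.WallR.Sym
import Pool.Agent.WallR.Pot
import Pool.Agent.WallR.MW
import Pool.Agent.WallR.LvlW
import Pool.Agent.WallR.Lvl
import Pool.Agent.WallR.Iter
import Pool.Agent.WallR.Stage
import Pool.Agent.WallR.MachC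
import Pool.Agent.WallR.MachR
import Pool.Agent.WallR.Num

/-!
Randomised wall problem with axis-parallel rectangular obstacles (MP_981984_lc): the optimal
randomised competitive ratio is at most `exp (C * sqrt (log n * log (log n)))`, which is
`n ^ o(1)`. All definitions used in the statement are in `Pool.Agent.WallR.Defs`.
-/

open scoped ENNReal

namespace Pool.Agent.Results.MP_981984_lc.SubpolyUpper

open Pool.Agent.WallR

/-- There is a constant `C` such that for all real `n ≥ 16` the optimal randomised competitive
ratio `rho n` for the wall problem (robot without vision, oblivious adversary, arbitrary scenes of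
axis-parallel rectangles with sides of length at least one) is at most
`exp (C * sqrt (log n * log (log n)))`. -/
theorem result : ∃ C : ℝ, 0 < C ∧ ∀ n : ℝ, 16 ≤ n →
    rho n ≤ ENNReal.ofReal (Real.exp (C * Real.sqrt (Real.log n * Real.log (Real.log n)))) := by
  have hStop := pStop
  have hSlide := pSlide
  have hStopH := pStopH hStop
  have hStopV := pStopV hStop
  have hBase := pBase hStop hStopH hSlide
  have hBaseG := pBaseG hBase
  have hGoto := pGoto hStop hStopV hSlide
  have hSeq := pSeq
  have hSeqG := pSeqG
  have hTL := pTourLaw hStop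
  have hTS := pTourSure hStop
  have hTC := pTourCost hStop
  have hTO := pTourOk
  have hLaw := pLaw hTL
  have hRnd := pRnd hTL hTS hTC hTO hLaw
  have hMW := pMW hLaw hRnd pSym pPot
  have hLvlW := pLvlW hBase hGoto hSeq hRnd
  have hLvl := pLvl hLvlW hBaseG hGoto hSeq hSeqG hMW
  have hIter := pIter hSeq
  have hStage := pStage hLvlW hLvl hIter
  exact pFinal pCmp (pExist hStop hStopH hSlide) hStage pMachC pMachR pNum

end Pool.Agent.Results.MP_981984_lc.SubpolyUpper
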